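import Pool.Agent.helper57.refl.Defs

/-!
From simple polygons to index paths: the geometric half of the lower bound for the reflexivity.
-/

namespace Pool.Agent.H57.Refl

/-! ### Two crossing segments share a point -/

theorem det3_cyc (a b c : ℝ × ℝ) : det3 b c a = det3 a b c := by
  unfold det3; ring

theorem det3_rev (a b c : ℝ × ℝ) : det3 c b a = - det3 a b c := by
  unfold det3; ring

theorem mem_segment_of {a b : ℝ × ℝ} {t : ℝ} (h0 : 0 ≤ t) (h1 : t ≤ 1) :
    (a.1 + t * (b.1 - a.1), a.2 + t * (b.2 - a.2)) ∈ segment ℝ a b := by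
  refine ⟨1 - t, t, by linarith, h0, by ring, ?_⟩
  ext
  · simp [Prod.smul_fst]; ring
  · simp [Prod.smul_snd]; ring

theorem segments_meet {a b c d : ℝ × ℝ} (h1 : det3 a b c * det3 a b d < 0)
    (h2 : det3 c d a * det3 c d b < 0) : (segment ℝ a b ∩ segment ℝ c d).Nonempty := by
  set α := det3 c d a with hα
  set β := det3 c d b with hβ
  set γ := det3 a b c with hγ
  set δ := det3 a b d with hδ
  have hD1 : α - β = (b.1 - a.1) * (d.2 - c.2) - (b.2 - a.2) * (d.1 - c.1) := by
    simp only [hα, hβ, det3]; ring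
  have hD2 : δ - γ = (b.1 - a.1) * (d.2 - c.2) - (b.2 - a.2) * (d.1 - c.1) := by
    simp only [hγ, hδ, det3]; ring
  have hne : α - β ≠ 0 := by
    intro h
    have : α = β := by linarith
    rw [this] at h2
    nlinarith [mul_self_nonneg β]
  have ht : 0 ≤ α / (α - β) ∧ α / (α - β) ≤ 1 := by
    rcases lt_or_gt_of_ne hne with h | h
    · have hα0 : α < 0 := by
        by_contra hc
        have hc' : 0 ≤ α := not_lt.mp hc
        have hβ0 : 0 < β := by linarith
        nlinarith [mul_nonneg hc' hβ0.le]
      have hβ0 : 0 < β := by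
        by_contra hc
        have hc' : β ≤ 0 := not_lt.mp hc
        nlinarith [mul_nonneg_of_nonpos_of_nonpos hα0.le hc']
      constructor
      · exact div_nonneg_of_nonpos hα0.le h.le
      · rw [div_le_one_of_neg h]; linarith
    · have hα0 : 0 < α := by
        by_contra hc
        have hc' : α ≤ 0 := not_lt.mp hc
        have hβ0 : β < 0 := by linarith
        nlinarith [mul_nonneg_of_nonpos_of_nonpos hc' hβ0.le]
      have hβ0 : β < 0 := by
        by_contra hc
        have hc' : 0 ≤ β := not_lt.mp hc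
        nlinarith [mul_nonneg hα0.le hc']
      constructor
      · exact div_nonneg hα0.le h.le
      · rw [div_le_one h]; linarith
  have hne' : γ - δ ≠ 0 := by
    intro h; apply hne; linarith
  have hu : 0 ≤ γ / (γ - δ) ∧ γ / (γ - δ) ≤ 1 := by
    rcases lt_or_gt_of_ne hne' with h | h
    · have hα0 : γ < 0 := by
        by_contra hc
        have hc' : 0 ≤ γ := not_lt.mp hc
        have hβ0 : 0 < δ := by linarith
        nlinarith [mul_nonneg hc' hβ0.le]
      have hβ0 : 0 < δ := by
        by_contra hc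
        have hc' : δ ≤ 0 := not_lt.mp hc
        nlinarith [mul_nonneg_of_nonpos_of_nonpos hα0.le hc']
      constructor
      · exact div_nonneg_of_nonpos hα0.le h.le
      · rw [div_le_one_of_neg h]; linarith
    · have hα0 : 0 < γ := by
        by_contra hc
        have hc' : γ ≤ 0 := not_lt.mp hc
        have hβ0 : δ < 0 := by linarith
        nlinarith [mul_nonneg_of_nonpos_of_nonpos hc' hβ0.le]
      have hβ0 : δ < 0 := by
        by_contra hc
        have hc' : 0 ≤ δ := not_lt.mp hc
        nlinarith [mul_nonneg hα0.le hc']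
      constructor
      · exact div_nonneg hα0.le h.le
      · rw [div_le_one h]; linarith
  refine ⟨(a.1 + α / (α - β) * (b.1 - a.1), a.2 + α / (α - β) * (b.2 - a.2)),
    mem_segment_of ht.1 ht.2, ?_⟩
  have e : (a.1 + α / (α - β) * (b.1 - a.1), a.2 + α / (α - β) * (b.2 - a.2)) =
      (c.1 + γ / (γ - δ) * (d.1 - c.1), c.2 + γ / (γ - δ) * (d.2 - c.2)) := by
    have hgd : γ - δ = -(α - β) := by linarith
    have k1 : (α - β) * (a.1 - c.1) + α * (b.1 - a.1) + γ * (d.1 - c.1) = 0 := by
      simp only [hα, hβ, hγ, det3]; ring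
    have k2 : (α - β) * (a.2 - c.2) + α * (b.2 - a.2) + γ * (d.2 - c.2) = 0 := by
      simp only [hα, hβ, hγ, det3]; ring
    rw [hgd, div_neg]
    ext
    · simp only
      field_simp
      linarith
    · simp only
      field_simp
      linarith
  rw [e]
  exact mem_segment_of hu.1 hu.2

/-! ### Casting the integer determinant -/

/-- The real point of an index. -/
def rp (pts : ℕ → ℤ × ℤ) (i : ℕ) : ℝ × ℝ := (((pts i).1 : ℝ), ((pts i).2 : ℝ))

theorem det3_rp (pts : ℕ → ℤ × ℤ) (a b c : ℕ) :
    det3 (rp pts a) (rp pts b) (rp pts c) = (detZ (pts a) (pts b) (pts c) : ℤ) := by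
  simp only [det3, detZ, rp]; push_cast; ring

theorem lft_iff (pts : ℕ → ℤ × ℤ) (a b c : ℕ) :
    lft pts a b c = true ↔ 0 < det3 (rp pts a) (rp pts b) (rp pts c) := by
  rw [det3_rp, lft, decide_eq_true_iff]
  norm_cast

theorem rgt_iff (pts : ℕ → ℤ × ℤ) (a b c : ℕ) :
    rgt pts a b c = true ↔ det3 (rp pts a) (rp pts b) (rp pts c) < 0 := by
  rw [det3_rp, rgt, decide_eq_true_iff]
  norm_cast

theorem opp_of_lft_ne {pts : ℕ → ℤ × ℤ} {a b c d : ℕ} (hc : detZ (pts a) (pts b) (pts c) ≠ 0)
    (hd : detZ (pts a) (pts b) (pts d) ≠ 0) (h : (lft pts a b c != lft pts a b d) = true) :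
    det3 (rp pts a) (rp pts b) (rp pts c) * det3 (rp pts a) (rp pts b) (rp pts d) < 0 := by
  have hc' : det3 (rp pts a) (rp pts b) (rp pts c) ≠ 0 := by
    rw [det3_rp]; exact_mod_cast hc
  have hd' : det3 (rp pts a) (rp pts b) (rp pts d) ≠ 0 := by
    rw [det3_rp]; exact_mod_cast hd
  have h' : lft pts a b c ≠ lft pts a b d := by simpa using h
  by_cases h1 : 0 < det3 (rp pts a) (rp pts b) (rp pts c)
  · have h2 : ¬ 0 < det3 (rp pts a) (rp pts b) (rp pts d) := by
      intro h2
      exact h' (((lft_iff pts a b c).2 h1).trans ((lft_iff pts a b d).2 h2).symm)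
    exact mul_neg_of_pos_of_neg h1 (lt_of_le_of_ne (not_lt.mp h2) hd')
  · have h2 : 0 < det3 (rp pts a) (rp pts b) (rp pts d) := by
      by_contra h2
      apply h'
      have e1 : lft pts a b c = false := by
        rw [Bool.eq_false_iff]; intro hh; exact h1 ((lft_iff pts a b c).1 hh)
      have e2 : lft pts a b d = false := by
        rw [Bool.eq_false_iff]; intro hh; exact h2 ((lft_iff pts a b d).1 hh)
      rw [e1, e2]
    exact mul_neg_of_neg_of_pos (lt_of_le_of_ne (not_lt.mp h1) hc') h2

theorem crs_meet {pts : ℕ → ℤ × ℤ} {a b c d : ℕ}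
    (h1 : detZ (pts a) (pts b) (pts c) ≠ 0) (h2 : detZ (pts a) (pts b) (pts d) ≠ 0)
    (h3 : detZ (pts c) (pts d) (pts a) ≠ 0) (h4 : detZ (pts c) (pts d) (pts b) ≠ 0)
    (h : crs pts a b c d = true) :
    (segment ℝ (rp pts a) (rp pts b) ∩ segment ℝ (rp pts c) (rp pts d)).Nonempty := by
  rw [crs, Bool.and_eq_true] at h
  exact segments_meet (opp_of_lft_ne h1 h2 h.1) (opp_of_lft_ne h3 h4 h.2)

/-! ### Pairs and triples of the list of values of a function -/

theorem pairs_map_range (q : ℕ → ℕ) : ∀ (m : ℕ) (e : ℕ × ℕ),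
    e ∈ pairs ((List.range (m + 1)).map q) → ∃ k < m, e = (q k, q (k + 1)) := by
  intro m
  induction m generalizing q with
  | zero => intro e he; simp [pairs] at he
  | succ m ih =>
    intro e he
    have h1 : (List.range (m + 2)).map q = q 0 :: ((List.range (m + 1)).map (fun k => q (k + 1))) := by
      rw [List.range_succ_eq_map]; simp [Function.comp_def]
    have h2 : (List.range (m + 1)).map (fun k => q (k + 1)) =
        q 1 :: ((List.range m).map (fun k => q (k + 2))) := by
      rw [List.range_succ_eq_map]; simp [Function.comp_def]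
    rw [h1, h2, pairs, ← h2] at he
    rcases List.mem_cons.1 he with rfl | he
    · exact ⟨0, by omega, rfl⟩
    · obtain ⟨k, hk, rfl⟩ := ih (fun k => q (k + 1)) e he
      exact ⟨k + 1, by omega, rfl⟩

theorem triples_map_range (q : ℕ → ℕ) : ∀ (m : ℕ),
    triples ((List.range (m + 2)).map q) = (List.range m).map (fun k => (q k, q (k + 1), q (k + 2))) := by
  intro m
  induction m generalizing q with
  | zero => simp [List.range_succ, triples]
  | succ m ih =>
    have h1 : (List.range (m + 3)).map q = q 0 :: ((List.range (m + 2)).map (fun k => q (k + 1))) := by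
      rw [List.range_succ_eq_map]; simp [Function.comp_def]
    have h2 : (List.range (m + 2)).map (fun k => q (k + 1)) =
        q 1 :: q 2 :: ((List.range m).map (fun k => q (k + 3))) := by
      rw [List.range_succ_eq_map, List.range_succ_eq_map]; simp [Function.comp_def]
    rw [h1, h2, triples, ← h2, ih (fun k => q (k + 1))]
    rw [List.range_succ_eq_map]
    simp [Function.comp_def]

theorem countP_range (R : ℕ → Bool) : ∀ m : ℕ,
    (List.range m).countP R = ((Finset.range m).filter (fun k => R k = true)).card := by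
  intro m
  induction m with
  | zero => simp
  | succ m ih =>
    rw [List.range_succ, List.countP_append, ih, Finset.card_filter, Finset.card_filter,
      Finset.sum_range_succ]
    congr 1
    by_cases h : R m = true <;> simp [h]

/-- Counting over the triples is counting positions. -/
theorem countP_triples (q : ℕ → ℕ) (m : ℕ) (P : ℕ → ℕ → ℕ → Bool) :
    (triples ((List.range (m + 2)).map q)).countP (fun t => P t.1 t.2.1 t.2.2) =
      ((Finset.range m).filter (fun k => P (q k) (q (k + 1)) (q (k + 2)) = true)).card := by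
  rw [triples_map_range, List.countP_map]
  exact countP_range (fun k => P (q k) (q (k + 1)) (q (k + 2))) m

/-! ### The abstract cyclic walk -/

/-- A closed walk `q 0, …, q m` (with `q m = q 0 = s`) through all indices `< n`, without crossings and with a left
turn at `s`, gives `CycOK`. -/
theorem cycOK_of_walk {n s m : ℕ} {pts : ℕ → ℤ × ℤ} (q : ℕ → ℕ) (hm : 3 ≤ m)
    (h0 : q 0 = s) (hper : q m = s) (hinj : ∀ i < m, ∀ j < m, q i = q j → i = j)
    (hsurj : ∀ i, i < n ↔ ∃ k < m, q k = i)
    (hcr : ∀ i < m, ∀ j < m, q i ≠ q j → q i ≠ q (j + 1) → q (i + 1) ≠ q j → q (i + 1) ≠ q (j + 1) →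
      crs pts (q i) (q (i + 1)) (q j) (q (j + 1)) = false)
    (hl : lft pts (q (m - 1)) s (q 1) = true) :
    CycOK n s pts ((List.range (m - 1)).map (fun k => q (k + 1))) ∧
      s :: ((List.range (m - 1)).map (fun k => q (k + 1))) ++ [s] = (List.range (m + 1)).map q := by
  obtain ⟨M, rfl⟩ : ∃ M, m = M + 2 := ⟨m - 2, by omega⟩
  have e1 : s :: ((List.range (M + 2 - 1)).map (fun k => q (k + 1))) = (List.range (M + 2)).map q := by
    have : M + 2 - 1 = M + 1 := by omega
    rw [this, List.range_succ_eq_map (n := M + 1)]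
    simp [Function.comp_def, h0]
  have e2 : s :: ((List.range (M + 2 - 1)).map (fun k => q (k + 1))) ++ [s] =
      (List.range (M + 2 + 1)).map q := by
    rw [e1, List.range_succ (n := M + 2), List.map_append]
    simp [hper]
  refine ⟨⟨?_, ?_, ?_, ?_⟩, e2⟩
  · rw [e1]
    rw [List.nodup_map_iff_inj_on (List.nodup_range)]
    intro x hx y hy hxy
    exact hinj x (List.mem_range.1 hx) y (List.mem_range.1 hy) hxy
  · intro i
    rw [e1, List.mem_map, hsurj]
    constructor
    · rintro ⟨k, hk, rfl⟩; exact ⟨k, List.mem_range.1 hk, rfl⟩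
    · rintro ⟨k, hk, rfl⟩; exact ⟨k, List.mem_range.2 hk, rfl⟩
  · rw [e2]
    intro e he f hf a1 a2 a3 a4
    obtain ⟨i, hi, rfl⟩ := pairs_map_range q _ e he
    obtain ⟨j, hj, rfl⟩ := pairs_map_range q _ f hf
    exact hcr i hi j hj a1 a2 a3 a4
  · have hne : (List.range (M + 2 - 1)).map (fun k => q (k + 1)) ≠ [] := by
      simp
    refine ⟨hne, ?_⟩
    have hlast : ((List.range (M + 2 - 1)).map (fun k => q (k + 1))).getLast hne = q (M + 2 - 1) := by
      rw [List.getLast_map, List.getLast_range]
      congr 1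
    have hhead : ((List.range (M + 2 - 1)).map (fun k => q (k + 1))).head hne = q 1 := by
      rw [List.head_map]
      simp
    rw [hlast, hhead]
    exact hl

/-! ### Counting along a bijective enumeration of the vertices -/

theorem card_le_of_walk {m : ℕ} (e : ℕ → Fin m) (hinj : ∀ i < m, ∀ j < m, e i = e j → i = j)
    (R : ℕ → Prop) [DecidablePred R] (T : Fin m → Prop) [DecidablePred T]
    (h : ∀ k < m - 1, R k → T (e (k + 1))) :
    ((Finset.range (m - 1)).filter R).card ≤ (Finset.univ.filter T).card := by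
  apply Finset.card_le_card_of_injOn (fun k => e (k + 1))
  · intro k hk
    rw [Finset.mem_coe, Finset.mem_filter, Finset.mem_range] at hk
    simp only [Finset.coe_filter, Finset.mem_univ, true_and, Set.mem_ofPred_eq]
    exact h k hk.1 hk.2
  · intro i hi j hj hij
    rw [Finset.mem_coe, Finset.mem_filter, Finset.mem_range] at hi hj
    have := hinj (i + 1) (by omega) (j + 1) (by omega) hij
    omega

theorem card_succ_le_of_walk {m : ℕ} (hm : 1 ≤ m) (e : ℕ → Fin m)
    (hinj : ∀ i < m, ∀ j < m, e i = e j → i = j)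
    (R : ℕ → Prop) [DecidablePred R] (T : Fin m → Prop) [DecidablePred T]
    (h : ∀ k < m - 1, R k → T (e (k + 1))) (h0 : T (e 0)) :
    ((Finset.range (m - 1)).filter R).card + 1 ≤ (Finset.univ.filter T).card := by
  have h1 := card_le_of_walk e hinj R (fun i => T i ∧ i ≠ e 0) (by
    intro k hk hR
    refine ⟨h k hk hR, ?_⟩
    intro he
    have := hinj (k + 1) (by omega) 0 (by omega) he
    omega)
  have h2 : (Finset.univ.filter (fun i => T i ∧ i ≠ e 0)).card < (Finset.univ.filter T).card := by
    apply Finset.card_lt_card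
    refine Finset.ssubset_iff_subset_ne.2 ⟨?_, ?_⟩
    · intro i hi
      rw [Finset.mem_filter] at hi ⊢
      exact ⟨hi.1, hi.2.1⟩
    · intro heq
      have : e 0 ∈ Finset.univ.filter (fun i => T i ∧ i ≠ e 0) := by
        rw [heq]; exact Finset.mem_filter.2 ⟨Finset.mem_univ _, h0⟩
      rw [Finset.mem_filter] at this
      exact this.2.2 rfl
  omega

/-- The two counts along a walk. -/
theorem walk_counts {n s m : ℕ} {pts : ℕ → ℤ × ℤ}
    (gp : ∀ a b c, a < n → b < n → c < n → a ≠ b → a ≠ c → b ≠ c →
      detZ (pts a) (pts b) (pts c) ≠ 0)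
    (HA : ∀ l, CycOK n s pts l → 5 ≤ (triples (s :: l ++ [s])).countP (fun t => rgt pts t.1 t.2.1 t.2.2))
    (HB : ∀ l, CycOK n s pts l → 4 ≤ (triples (s :: l ++ [s])).countP (fun t => lft pts t.1 t.2.1 t.2.2))
    (q : ℕ → ℕ) (hm : 3 ≤ m)
    (h0 : q 0 = s) (hper : q m = s) (hinj : ∀ i < m, ∀ j < m, q i = q j → i = j)
    (hsurj : ∀ i, i < n ↔ ∃ k < m, q k = i)
    (hseg : ∀ i < m, ∀ j < m, q i ≠ q j → q i ≠ q (j + 1) → q (i + 1) ≠ q j → q (i + 1) ≠ q (j + 1) →
      ¬ (segment ℝ (rp pts (q i)) (rp pts (q (i + 1))) ∩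
        segment ℝ (rp pts (q j)) (rp pts (q (j + 1)))).Nonempty)
    (hl : 0 < det3 (rp pts (q (m - 1))) (rp pts s) (rp pts (q 1))) :
    5 ≤ ((Finset.range (m - 1)).filter (fun k =>
        det3 (rp pts (q k)) (rp pts (q (k + 1))) (rp pts (q (k + 2))) < 0)).card ∧
    4 ≤ ((Finset.range (m - 1)).filter (fun k =>
        0 < det3 (rp pts (q k)) (rp pts (q (k + 1))) (rp pts (q (k + 2))))).card := by
  classical
  have hlt : ∀ k ≤ m, q k < n := by
    intro k hk
    rcases Nat.lt_or_ge k m with h | h
    · exact (hsurj _).2 ⟨k, h, rfl⟩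
    · have : k = m := le_antisymm hk h
      rw [this, hper, ← h0]
      exact (hsurj _).2 ⟨0, by omega, rfl⟩
  have hstep : ∀ k < m, q k ≠ q (k + 1) := by
    intro k hk he
    rcases Nat.lt_or_ge (k + 1) m with h | h
    · have := hinj k hk (k + 1) h he; omega
    · have : k + 1 = m := by omega
      rw [this, hper, ← h0] at he
      have := hinj k hk 0 (by omega) he
      omega
  have hcr : ∀ i < m, ∀ j < m, q i ≠ q j → q i ≠ q (j + 1) → q (i + 1) ≠ q j → q (i + 1) ≠ q (j + 1) →
      crs pts (q i) (q (i + 1)) (q j) (q (j + 1)) = false := by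
    intro i hi j hj a1 a2 a3 a4
    rw [Bool.eq_false_iff]
    intro hc
    refine hseg i hi j hj a1 a2 a3 a4 (crs_meet ?_ ?_ ?_ ?_ hc)
    · exact gp _ _ _ (hlt _ (by omega)) (hlt _ (by omega)) (hlt _ (by omega)) (hstep i hi) a1 a3
    · exact gp _ _ _ (hlt _ (by omega)) (hlt _ (by omega)) (hlt _ (by omega)) (hstep i hi) a2 a4
    · exact gp _ _ _ (hlt _ (by omega)) (hlt _ (by omega)) (hlt _ (by omega)) (hstep j hj) a1.symm a2.symm
    · exact gp _ _ _ (hlt _ (by omega)) (hlt _ (by omega)) (hlt _ (by omega)) (hstep j hj) a3.symm a4.symm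
  obtain ⟨hcyc, heq⟩ := cycOK_of_walk (n := n) (pts := pts) q hm h0 hper hinj hsurj hcr
    ((lft_iff _ _ _ _).2 hl)
  have hA := HA _ hcyc
  have hB := HB _ hcyc
  obtain ⟨M, rfl⟩ : ∃ M, m = M + 1 := ⟨m - 1, by omega⟩
  rw [heq, countP_triples] at hA hB
  have e : M + 1 - 1 = M := by omega
  rw [e]
  constructor
  · calc 5 ≤ _ := hA
      _ = _ := by
        congr 1
        apply Finset.filter_congr
        intro k _
        exact rgt_iff _ _ _ _
  · calc 4 ≤ _ := hB
      _ = _ := by
        congr 1
        apply Finset.filter_congr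
        intro k _
        exact lft_iff _ _ _ _

theorem det3_self_left (a b : ℝ × ℝ) : det3 a a b = 0 := by unfold det3; ring

open scoped Fin.NatCast Fin.CommRing in
/-- **The lower bound for the reflexivity from the two index counts.** -/
theorem five_le_reflexCount (n s : ℕ) (pts : ℕ → ℤ × ℤ) (hn : 3 ≤ n) (hs : s < n)
    (gp : ∀ a b c, a < n → b < n → c < n → a ≠ b → a ≠ c → b ≠ c →
      detZ (pts a) (pts b) (pts c) ≠ 0)
    (HA : ∀ l, CycOK n s pts l → 5 ≤ (triples (s :: l ++ [s])).countP (fun t => rgt pts t.1 t.2.1 t.2.2))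
    (HB : ∀ l, CycOK n s pts l → 4 ≤ (triples (s :: l ++ [s])).countP (fun t => lft pts t.1 t.2.1 t.2.2)) :
    ∀ (m : ℕ) [NeZero m] (f : Fin m → ℝ × ℝ), IsSimplePolygon m f →
      Set.range f = {x | ∃ i < n, x = (((pts i).1 : ℝ), ((pts i).2 : ℝ))} → 5 ≤ reflexCount m f := by
  classical
  intro m _ f hf hrange
  obtain ⟨hm, hfinj, hsimple⟩ := hf
  -- the points are different
  have hpinj : ∀ a < n, ∀ b < n, rp pts a = rp pts b → a = b := by
    intro a ha b hb hab
    by_contra hne
    obtain ⟨c, hc, hca, hcb⟩ : ∃ c < n, c ≠ a ∧ c ≠ b := by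
      by_contra hcon
      push Not at hcon
      have h0 := hcon 0 (by omega)
      have h1 := hcon 1 (by omega)
      have h2 := hcon 2 (by omega)
      by_cases x0 : 0 = a <;> by_cases x1 : 1 = a <;> by_cases x2 : 2 = a <;> grind
    have h := gp a b c ha hb hc hne hca.symm hcb.symm
    apply h
    have h' : det3 (rp pts a) (rp pts b) (rp pts c) = 0 := by rw [hab, det3_self_left]
    rw [det3_rp] at h'
    exact_mod_cast h'
  have hidx : ∀ j : Fin m, ∃ i, i < n ∧ f j = rp pts i := by
    intro j
    have : f j ∈ Set.range f := ⟨j, rfl⟩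
    rw [hrange] at this
    obtain ⟨i, hi, h⟩ := this
    exact ⟨i, hi, h⟩
  choose idx hidxlt hidxeq using hidx
  have hidxinj : ∀ a b, idx a = idx b → a = b := by
    intro a b hab
    apply hfinj
    rw [hidxeq, hidxeq, hab]
  have hidxsurj : ∀ i < n, ∃ j, idx j = i := by
    intro i hi
    have : rp pts i ∈ Set.range f := by rw [hrange]; exact ⟨i, hi, rfl⟩
    obtain ⟨j, hj⟩ := this
    refine ⟨j, hpinj _ (hidxlt j) _ hi ?_⟩
    rw [← hidxeq, hj]
  obtain ⟨k0, hk0⟩ := hidxsurj s hs
  have hm0 : ((m : ℕ) : Fin m) = 0 := by simp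
  have hcast : ∀ a < m, ∀ b < m, ((a : ℕ) : Fin m) = ((b : ℕ) : Fin m) → a = b := by
    intro a ha b hb hab
    have := congrArg Fin.val hab
    rwa [Fin.val_natCast, Fin.val_natCast, Nat.mod_eq_of_lt ha, Nat.mod_eq_of_lt hb] at this
  have hcm1 : ((m - 1 : ℕ) : Fin m) = -1 := by
    have h1 : ((m - 1 + 1 : ℕ) : Fin m) = 0 := by
      rw [Nat.sub_add_cancel (by omega)]; exact hm0
    push_cast at h1
    exact eq_neg_of_add_eq_zero_left h1
  have hdiff : ∀ i j : Fin m, i ≠ j → f i ≠ f j := fun i j h h' => h (hfinj h')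
  -- the core: a segment disjointness statement in terms of `f`
  have hdisj : ∀ i j : Fin m, i ≠ j → idx i ≠ idx (j + 1) → idx (i + 1) ≠ idx j →
      idx (i + 1) ≠ idx (j + 1) →
      ¬ (segment ℝ (f i) (f (i + 1)) ∩ segment ℝ (f j) (f (j + 1))).Nonempty := by
    rintro i j hij h1 h2 h3 ⟨x, hx⟩
    have hx' := hsimple i j hij hx
    obtain ⟨hx1, hx2⟩ := hx'
    have g0 : f i ≠ f j := hdiff _ _ hij
    have g1 : f i ≠ f (j + 1) := hdiff _ _ (fun h => h1 (by rw [h]))
    have g2 : f (i + 1) ≠ f j := hdiff _ _ (fun h => h2 (by rw [h]))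
    have g3 : f (i + 1) ≠ f (j + 1) := hdiff _ _ (fun h => h3 (by rw [h]))
    rcases hx1 with rfl | hx1
    · rcases hx2 with hx2 | hx2
      · exact g0 hx2
      · exact g1 hx2
    · rw [Set.mem_singleton_iff] at hx1
      subst hx1
      rcases hx2 with hx2 | hx2
      · exact g2 hx2
      · exact g3 hx2
  have key : 5 ≤ (Finset.univ.filter fun i : Fin m => det3 (f (i - 1)) (f i) (f (i + 1)) < 0).card ∧
      5 ≤ (Finset.univ.filter fun i : Fin m => 0 < det3 (f (i - 1)) (f i) (f (i + 1))).card := by
    -- the turn at `k0`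
    have hne : det3 (f (k0 - 1)) (f k0) (f (k0 + 1)) ≠ 0 := by
      have d1 : k0 - 1 ≠ k0 := by
        intro h
        have h' : (1 : Fin m) = 0 := by
          have := sub_eq_self.1 h; exact this
        have := hcast 1 (by omega) 0 (by omega) (by simpa using h')
        omega
      have d2 : k0 ≠ k0 + 1 := by
        intro h
        have h' : (1 : Fin m) = 0 := left_eq_add.1 h
        have := hcast 1 (by omega) 0 (by omega) (by simpa using h')
        omega
      have d3 : k0 - 1 ≠ k0 + 1 := by
        intro h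
        have h' : (2 : ℕ) = 0 := by
          apply hcast 2 (by omega) 0 (by omega)
          have : (k0 + 1) - (k0 - 1) = (0 : Fin m) := by rw [h]; ring
          have e : (k0 + 1) - (k0 - 1) = (2 : Fin m) := by ring
          rw [e] at this
          simpa using this
        omega
      rw [hidxeq, hidxeq, hidxeq, det3_rp]
      have := gp _ _ _ (hidxlt (k0 - 1)) (hidxlt k0) (hidxlt (k0 + 1))
        (fun h => d1 (hidxinj _ _ h)) (fun h => d3 (hidxinj _ _ h)) (fun h => d2 (hidxinj _ _ h))
      exact_mod_cast this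
    rcases lt_or_gt_of_ne hne with hneg | hpos
    · -- reversed walk
      have einj : ∀ i < m, ∀ j < m, k0 - ((i : ℕ) : Fin m) = k0 - ((j : ℕ) : Fin m) → i = j := by
        intro i hi j hj h
        exact hcast i hi j hj (sub_right_injective h)
      have hw := walk_counts (n := n) (s := s) (m := m) (pts := pts) gp HA HB
        (fun k => idx (k0 - ((k : ℕ) : Fin m))) hm (by simpa using hk0) (by simpa using hk0)
        (fun i hi j hj h => einj i hi j hj (hidxinj _ _ h))
        (by
          intro i
          constructor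
          · intro hi
            obtain ⟨j, hj⟩ := hidxsurj i hi
            refine ⟨(k0 - j).val, (k0 - j).isLt, ?_⟩
            simp only [Fin.cast_val_eq_self]
            rw [sub_sub_cancel, hj]
          · rintro ⟨k, _, rfl⟩
            exact hidxlt _)
        (by
          intro i hi j hj a1 a2 a3 a4
          simp only [← hidxeq]
          have ei : k0 - ((i : ℕ) : Fin m) = (k0 - ((i + 1 : ℕ) : Fin m)) + 1 := by
            push_cast; ring
          have ej : k0 - ((j : ℕ) : Fin m) = (k0 - ((j + 1 : ℕ) : Fin m)) + 1 := by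
            push_cast; ring
          have := hdisj (k0 - ((i + 1 : ℕ) : Fin m)) (k0 - ((j + 1 : ℕ) : Fin m))
            (fun h => a4 (by simp only [h]))
            (by rw [← ej]; exact a3) (by rw [← ei]; exact a2) (by rw [← ei, ← ej]; exact a1)
          rw [ei, ej, segment_symm ℝ (f (k0 - ((i + 1 : ℕ) : Fin m) + 1)),
            segment_symm ℝ (f (k0 - ((j + 1 : ℕ) : Fin m) + 1))]
          exact this)
        (by
          have e1 : k0 - ((m - 1 : ℕ) : Fin m) = k0 + 1 := by rw [hcm1]; ring
          have e2 : k0 - ((1 : ℕ) : Fin m) = k0 - 1 := by simp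
          rw [e1, e2, ← hidxeq, ← hidxeq, ← hk0, ← hidxeq, det3_rev]
          linarith)
      simp only [← hidxeq] at hw
      have e0 : ∀ k : ℕ, k0 - ((k : ℕ) : Fin m) = (k0 - ((k + 1 : ℕ) : Fin m)) + 1 := by
        intro k; push_cast; ring
      have e2 : ∀ k : ℕ, k0 - ((k + 2 : ℕ) : Fin m) = (k0 - ((k + 1 : ℕ) : Fin m)) - 1 := by
        intro k; push_cast; ring
      constructor
      · refine le_trans (Nat.succ_le_succ hw.2) (card_succ_le_of_walk (by omega)
          (fun k => k0 - ((k : ℕ) : Fin m)) einj _ _ ?_ ?_)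
        · intro k _ hR
          rw [e0 k, e2 k, det3_rev] at hR
          linarith
        · simpa using hneg
      · refine le_trans hw.1 (card_le_of_walk (fun k => k0 - ((k : ℕ) : Fin m)) einj _ _ ?_)
        intro k _ hR
        rw [e0 k, e2 k, det3_rev] at hR
        linarith
    · -- forward walk
      have einj : ∀ i < m, ∀ j < m, k0 + ((i : ℕ) : Fin m) = k0 + ((j : ℕ) : Fin m) → i = j := by
        intro i hi j hj h
        exact hcast i hi j hj (add_left_cancel h)
      have hw := walk_counts (n := n) (s := s) (m := m) (pts := pts) gp HA HB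
        (fun k => idx (k0 + ((k : ℕ) : Fin m))) hm (by simpa using hk0) (by simpa using hk0)
        (fun i hi j hj h => einj i hi j hj (hidxinj _ _ h))
        (by
          intro i
          constructor
          · intro hi
            obtain ⟨j, hj⟩ := hidxsurj i hi
            refine ⟨(j - k0).val, (j - k0).isLt, ?_⟩
            simp only [Fin.cast_val_eq_self]
            rw [add_sub_cancel, hj]
          · rintro ⟨k, _, rfl⟩
            exact hidxlt _)
        (by
          intro i hi j hj a1 a2 a3 a4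
          simp only [← hidxeq]
          have ei : k0 + ((i + 1 : ℕ) : Fin m) = (k0 + ((i : ℕ) : Fin m)) + 1 := by
            push_cast; ring
          have ej : k0 + ((j + 1 : ℕ) : Fin m) = (k0 + ((j : ℕ) : Fin m)) + 1 := by
            push_cast; ring
          have := hdisj (k0 + ((i : ℕ) : Fin m)) (k0 + ((j : ℕ) : Fin m))
            (fun h => a1 (by simp only [h]))
            (by rw [← ej]; exact a2) (by rw [← ei]; exact a3) (by rw [← ei, ← ej]; exact a4)
          rw [ei, ej]
          exact this)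
        (by
          have e1 : k0 + ((m - 1 : ℕ) : Fin m) = k0 - 1 := by rw [hcm1]; ring
          have e2 : k0 + ((1 : ℕ) : Fin m) = k0 + 1 := by simp
          rw [e1, e2, ← hidxeq, ← hidxeq, ← hk0, ← hidxeq]
          exact hpos)
      simp only [← hidxeq] at hw
      have e0 : ∀ k : ℕ, k0 + ((k : ℕ) : Fin m) = (k0 + ((k + 1 : ℕ) : Fin m)) - 1 := by
        intro k; push_cast; ring
      have e2 : ∀ k : ℕ, k0 + ((k + 2 : ℕ) : Fin m) = (k0 + ((k + 1 : ℕ) : Fin m)) + 1 := by
        intro k; push_cast; ring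
      constructor
      · refine le_trans hw.1 (card_le_of_walk (fun k => k0 + ((k : ℕ) : Fin m)) einj _ _ ?_)
        intro k _ hR
        rw [e0 k, e2 k] at hR
        exact hR
      · refine le_trans (Nat.succ_le_succ hw.2) (card_succ_le_of_walk (by omega)
          (fun k => k0 + ((k : ℕ) : Fin m)) einj _ _ ?_ ?_)
        · intro k _ hR
          rw [e0 k, e2 k] at hR
          exact hR
        · simpa using hpos
  unfold reflexCount
  split_ifs
  · exact key.1
  · exact key.2

end Pool.Agent.H57.Refl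

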